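import Pool.Agent.H35.PD.RVBa
import Pool.Agent.H82.PD.Targets

/-!
Board pdp_modules, module RVB: the real variable inequality for `p > 3`.
-/

set_option autoImplicit false

namespace Pool.Agent.H35.PD

open MeasureTheory Set Pool.Agent.H82.KL Pool.Agent.H82.PD
open scoped ENNReal NNReal

/-- the constants -/
theorem real_b (d : ℕ) (A p κ : ℝ) (hA : 0 < A) (hp : 3 < p) :
    ∃ C : ℝ, 0 ≤ C ∧ ∀ lam b : ℝ, 1 ≤ lam → 1 / lam ≤ b → b ≤ 8 →
      (b ^ 2)⁻¹ * ((A * b ^ d)⁻¹ * (((2 * b) ^ (((d : ℝ) - κ) * p)) ^ (1 / (p - 1)) *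
        (A * (2 * b) ^ d * lam ^ (κ * p)) ^ ((p - 2) / (p - 1)))) ≤
      C * (lam ^ (κ * p * (p - 2) / (p - 1)) + lam ^ (κ * p - ((d : ℝ) - 2))) := by
  have hp1 : 0 < p - 1 := by linarith
  set s : ℝ := 1 / (p - 1) with hs
  set q : ℝ := (p - 2) / (p - 1) with hq
  have hsq : s + q = 1 := by
    rw [hs, hq]
    field_simp
    ring
  have hps : p * s = 1 + s := by
    rw [hs]
    field_simp
    ring
  set e : ℝ := (d : ℝ) - 2 - κ * p * s with he
  set k : ℝ := A⁻¹ * A ^ q * (2 ^ (((d : ℝ) - κ) * p * s) * 2 ^ ((d : ℝ) * q)) with hk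
  have hk0 : 0 < k := by positivity
  refine ⟨k * 8 ^ |e|, by positivity, fun lam b hl hb1 hb2 => ?_⟩
  have hlam : 0 < lam := by linarith
  have hb : 0 < b := lt_of_lt_of_le (by positivity) hb1
  have h8 : (1 : ℝ) ≤ 8 ^ |e| := Real.one_le_rpow (by norm_num) (abs_nonneg _)
  have e1 : (b ^ 2)⁻¹ * ((A * b ^ d)⁻¹ * (((2 * b) ^ (((d : ℝ) - κ) * p)) ^ s *
        (A * (2 * b) ^ d * lam ^ (κ * p)) ^ q)) = k * (b ^ e * lam ^ (κ * p * q)) := by
    have h1 : ((2 * b) ^ (((d : ℝ) - κ) * p)) ^ s =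
        2 ^ (((d : ℝ) - κ) * p * s) * b ^ (((d : ℝ) - κ) * p * s) := by
      rw [← Real.rpow_mul (by positivity), Real.mul_rpow (by norm_num) hb.le]
    have h2 : (A * (2 * b) ^ d * lam ^ (κ * p)) ^ q =
        A ^ q * (2 ^ ((d : ℝ) * q) * b ^ ((d : ℝ) * q)) * lam ^ (κ * p * q) := by
      rw [Real.mul_rpow (by positivity) (by positivity), Real.mul_rpow hA.le (by positivity),
        ← Real.rpow_natCast (2 * b) d, ← Real.rpow_mul (by positivity) (d : ℝ),
        ← Real.rpow_mul hlam.le, Real.mul_rpow (by norm_num) hb.le]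
    have h3 : (b ^ 2)⁻¹ = b ^ (-2 : ℝ) := by
      rw [Real.rpow_neg hb.le]
      congr 1
      exact_mod_cast (Real.rpow_natCast b 2).symm
    have h4 : (A * b ^ d)⁻¹ = A⁻¹ * b ^ (-(d : ℝ)) := by
      rw [mul_inv, Real.rpow_neg hb.le, Real.rpow_natCast]
    have h5 : b ^ (-2 : ℝ) * b ^ (-(d : ℝ)) * b ^ (((d : ℝ) - κ) * p * s) *
        b ^ ((d : ℝ) * q) = b ^ e := by
      rw [← Real.rpow_add hb, ← Real.rpow_add hb, ← Real.rpow_add hb]
      congr 1
      have h6 : q = 1 - s := by linarith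
      rw [he, h6]
      linear_combination (d : ℝ) * hps
    rw [h1, h2, h3, h4, hk, ← h5]
    ring
  have e2 : b ^ e ≤ 8 ^ |e| + lam ^ (-e) := by
    rcases le_total 0 e with h | h
    · have h1 : b ^ e ≤ 8 ^ |e| := by
        rw [abs_of_nonneg h]
        exact Real.rpow_le_rpow hb.le hb2 h
      have h2 : 0 ≤ lam ^ (-e) := Real.rpow_nonneg hlam.le _
      linarith
    · have h1 : b ^ e ≤ lam ^ (-e) := by
        have h2 : b ^ e = (b⁻¹) ^ (-e) := by
          rw [Real.inv_rpow hb.le, ← Real.rpow_neg hb.le, neg_neg]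
        rw [h2]
        refine Real.rpow_le_rpow (by positivity) ?_ (by linarith)
        rw [inv_le_comm₀ hb hlam]
        rwa [one_div] at hb1
      linarith
  have e3 : lam ^ (κ * p * (p - 2) / (p - 1)) = lam ^ (κ * p * q) := by
    congr 1
    rw [hq]
    ring
  have e4 : lam ^ (-e) * lam ^ (κ * p * q) = lam ^ (κ * p - ((d : ℝ) - 2)) := by
    rw [← Real.rpow_add hlam]
    congr 1
    rw [he]
    linear_combination κ * p * hsq
  rw [e1, e3, ← e4, mul_assoc k]
  refine mul_le_mul_of_nonneg_left ?_ hk0.le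
  have h9 : 0 ≤ lam ^ (κ * p * q) := Real.rpow_nonneg hlam.le _
  have h10 : 0 ≤ lam ^ (-e) * lam ^ (κ * p * q) := by positivity
  calc b ^ e * lam ^ (κ * p * q) ≤ (8 ^ |e| + lam ^ (-e)) * lam ^ (κ * p * q) :=
        mul_le_mul_of_nonneg_right e2 h9
    _ ≤ 8 ^ |e| * (lam ^ (κ * p * q) + lam ^ (-e) * lam ^ (κ * p * q)) := by
        nlinarith

/-- (RVB) the real variable inequality, `p > 3` -/
theorem pf_RVB (h : T_SHD) : T_RVB := by
  intro d p κ C₀ hd hp hκ
  have hp1 : 0 < p - 1 := by linarith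
  have hp2 : 0 ≤ p - 2 := by linarith
  obtain ⟨C₁, hC₁⟩ := h d (C₀ ^ (p - 2)) hd
  obtain ⟨A, hA0, hA⟩ := vol_cb d
  obtain ⟨C₂, hC₂, hR⟩ := real_b d A p κ hA0 hp
  have hCn : 0 ≤ 1 + (C₁ : ℝ) * C₂ := by positivity
  refine ⟨C₁ * Real.toNNReal (1 + C₁ * C₂), fun lam F V hl hF hV h1 h2 h3 => ?_⟩
  have hlam : 0 < lam := by linarith
  obtain ⟨J, hJ, hJb, hG⟩ := hC₁ lam hl
  have hFp : Measurable (fun x => F x ^ p) := hF.pow_const p
  have hF2 : Measurable (fun x => F x ^ 2) := hF.pow_const 2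
  have hGm : Measurable (fun x => F x ^ (p - 2)) := hF.pow_const (p - 2)
  have hGc : ∀ x y, ‖x - y‖ ≤ 1 / lam → F y ^ (p - 2) ≤
      ((C₀ ^ (p - 2) : ℝ≥0) : ℝ≥0∞) * F x ^ (p - 2) := by
    intro x y hxy
    rw [ENNReal.coe_rpow_of_nonneg _ hp2, ← ENNReal.mul_rpow_of_nonneg _ _ hp2]
    exact ENNReal.rpow_le_rpow (h1 x y hxy) hp2
  have hk := hG (fun y => F y ^ (p - 2)) hGm hGc
  set W : ℝ≥0∞ := ∫⁻ x, V x ^ p with hW
  have hp0 : 0 ≤ p := by linarith
  -- the integral of `F ^ p`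
  have hFW : ∫⁻ x, F x ^ p ≤ ENNReal.ofReal (lam ^ (κ * p)) * W := by
    rw [hW, ← lintegral_const_mul' _ _ ENNReal.ofReal_ne_top]
    refine lintegral_mono fun x => ?_
    refine (ENNReal.rpow_le_rpow (h2 x) hp0).trans (le_of_eq ?_)
    rw [ENNReal.mul_rpow_of_nonneg _ _ hp0, ENNReal.ofReal_rpow_of_nonneg (by positivity) hp0,
      ← Real.rpow_mul hlam.le]
  -- the dyadic terms
  set S : ℝ := lam ^ (κ * p * (p - 2) / (p - 1)) + lam ^ (κ * p - ((d : ℝ) - 2)) with hS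
  have hS0 : 0 ≤ S := by positivity
  have hT : ∀ j ∈ Finset.range J, ENNReal.ofReal (((8 / 2 ^ j : ℝ) ^ 2)⁻¹) *
      ∫⁻ x, F x ^ 2 * ba (8 / 2 ^ j) (fun y => F y ^ (p - 2)) x ≤
      ENNReal.ofReal (C₂ * S) * W := by
    intro j hj
    have hb1 := hJb j (Finset.mem_range.1 hj)
    set b : ℝ := 8 / 2 ^ j with hb
    have hb0 : 0 < b := by positivity
    have hb2 : b ≤ 8 := by
      rw [hb]
      exact div_le_self (by norm_num) (one_le_pow₀ (by norm_num))
    have h4 : ∫⁻ z, ba (2 * b) F z ^ p ≤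
        ENNReal.ofReal ((2 * b) ^ (((d : ℝ) - κ) * p)) * W := by
      rw [hW, ← lintegral_const_mul' _ _ ENNReal.ofReal_ne_top]
      refine lintegral_mono fun x => ?_
      refine (ENNReal.rpow_le_rpow (h3 (2 * b) x (by linarith) (by linarith)) hp0).trans
        (le_of_eq ?_)
      rw [ENNReal.mul_rpow_of_nonneg _ _ hp0, ENNReal.ofReal_rpow_of_nonneg (by positivity) hp0,
        ← Real.rpow_mul (by positivity)]
    have h5 := Tb A hA0 hA p hp b hb0 F hF W ((2 * b) ^ (((d : ℝ) - κ) * p)) (lam ^ (κ * p))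
      (by positivity) (by positivity) h4 hFW
    refine (mul_le_mul_right h5 _).trans ?_
    rw [← mul_assoc, ← ENNReal.ofReal_mul (by positivity)]
    exact mul_le_mul_left (ENNReal.ofReal_le_ofReal (hR lam b hl hb1 hb2)) _
  -- the sum
  unfold KB
  rw [if_neg (by linarith)]
  have h6 : ∫⁻ x, F x ^ 2 * k2B (fun y => F y ^ (p - 2)) x ≤
      ∫⁻ x, C₁ * (ENNReal.ofReal (lam ^ (-((d : ℝ) - 2))) * F x ^ p +
        ∑ j ∈ Finset.range J, ENNReal.ofReal (((8 / 2 ^ j : ℝ) ^ 2)⁻¹) *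
          (F x ^ 2 * ba (8 / 2 ^ j) (fun y => F y ^ (p - 2)) x)) := by
    refine lintegral_mono fun x => ?_
    refine (mul_le_mul_right (hk x) _).trans (le_of_eq ?_)
    have h7 : F x ^ 2 * F x ^ (p - 2) = F x ^ p := by
      rw [← ENNReal.rpow_natCast, ← ENNReal.rpow_add_of_nonneg _ _ (by positivity) hp2]
      congr 1
      push_cast
      ring
    rw [← h7]
    rw [mul_left_comm, mul_add, Finset.mul_sum]
    congr 2
    · ring
    · refine Finset.sum_congr rfl fun j _ => ?_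
      ring
  refine h6.trans ?_
  rw [lintegral_const_mul' _ _ ENNReal.coe_ne_top, lintegral_add_left
    (hFp.const_mul _), lintegral_const_mul _ hFp, lintegral_finsetSum']
  · have h8 : ∑ j ∈ Finset.range J, ∫⁻ x, ENNReal.ofReal (((8 / 2 ^ j : ℝ) ^ 2)⁻¹) *
          (F x ^ 2 * ba (8 / 2 ^ j) (fun y => F y ^ (p - 2)) x) ≤
        ENNReal.ofReal (C₁ * (1 + Real.log lam) * (C₂ * S)) * W := by
      calc _ ≤ ∑ j ∈ Finset.range J, ENNReal.ofReal (C₂ * S) * W := by
            refine Finset.sum_le_sum fun j hj => ?_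
            rw [lintegral_const_mul' _ _ ENNReal.ofReal_ne_top]
            exact hT j hj
        _ = ENNReal.ofReal (J * (C₂ * S)) * W := by
            rw [Finset.sum_const, Finset.card_range, nsmul_eq_mul,
              ENNReal.ofReal_mul (p := (J : ℝ)) (by positivity), ENNReal.ofReal_natCast, mul_assoc]
        _ ≤ _ := by
            refine mul_le_mul_left (ENNReal.ofReal_le_ofReal ?_) _
            exact mul_le_mul_of_nonneg_right hJ (by positivity)
    have h9 : ENNReal.ofReal (lam ^ (-((d : ℝ) - 2))) * ∫⁻ x, F x ^ p ≤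
        ENNReal.ofReal S * W := by
      refine (mul_le_mul_right hFW _).trans ?_
      rw [← mul_assoc, ← ENNReal.ofReal_mul (by positivity), ← Real.rpow_add hlam]
      refine mul_le_mul_left (ENNReal.ofReal_le_ofReal ?_) _
      rw [hS]
      have : -((d : ℝ) - 2) + κ * p = κ * p - ((d : ℝ) - 2) := by ring
      rw [this]
      have : 0 ≤ lam ^ (κ * p * (p - 2) / (p - 1)) := by positivity
      linarith
    have hlog : 0 ≤ Real.log lam := Real.log_nonneg hl
    have hfin : (((C₁ * Real.toNNReal (1 + C₁ * C₂) : ℝ≥0)) : ℝ≥0∞) =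
        C₁ * ENNReal.ofReal (1 + C₁ * C₂) := by
      rw [ENNReal.coe_mul]
      rfl
    rw [hfin]
    refine (mul_le_mul_right (add_le_add h9 h8) _).trans ?_
    calc (C₁ : ℝ≥0∞) * (ENNReal.ofReal S * W +
          ENNReal.ofReal (C₁ * (1 + Real.log lam) * (C₂ * S)) * W)
        = C₁ * (ENNReal.ofReal (S + C₁ * (1 + Real.log lam) * (C₂ * S)) * W) := by
          rw [ENNReal.ofReal_add hS0 (by positivity), add_mul]
      _ ≤ C₁ * (ENNReal.ofReal ((1 + C₁ * C₂) * ((1 + Real.log lam) * S)) * W) := by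
          refine mul_le_mul_right (mul_le_mul_left (ENNReal.ofReal_le_ofReal ?_) _) _
          nlinarith [mul_nonneg hlog hS0]
      _ = _ := by
          rw [ENNReal.ofReal_mul hCn]
          ring
  · intro j _
    exact ((hF2.mul (ba_meas _ _ hGm)).const_mul _).aemeasurable

end Pool.Agent.H35.PD
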