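import Pool.Agent.H82.PD.Defs

/-!
Local averages: Tonelli and Hölder inequalities.
-/

set_option autoImplicit false

namespace Pool.Agent.H35.PD

open MeasureTheory Set Pool.Agent.H82.KL Pool.Agent.H82.PD
open scoped ENNReal NNReal

variable {d : ℕ}

theorem vol_cb (d : ℕ) : ∃ A : ℝ, 0 < A ∧ ∀ (x : EE d) (r : ℝ), 0 ≤ r →
    volume (Metric.closedBall x r) = ENNReal.ofReal (A * r ^ d) := by
  have h1 : volume (Metric.ball (0 : EE d) 1) ≠ ∞ := measure_ball_lt_top.ne
  have h2 : 0 < volume (Metric.ball (0 : EE d) 1) := Metric.measure_ball_pos _ _ one_pos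
  refine ⟨(volume (Metric.ball (0 : EE d) 1)).toReal, ENNReal.toReal_pos h2.ne' h1,
    fun x r hr => ?_⟩
  rw [Measure.addHaar_closedBall volume x hr, finrank_euclideanSpace, Fintype.card_fin,
    mul_comm _ (r ^ d), ENNReal.ofReal_mul (pow_nonneg hr _), ENNReal.ofReal_toReal h1]

theorem ba_ind (b : ℝ) (F : EE d → ℝ≥0∞) (x : EE d) :
    ba b F x = ∫⁻ y, (Metric.closedBall x b).indicator F y := by
  unfold ba
  rw [lintegral_indicator Metric.isClosed_closedBall.measurableSet]

theorem ind_meas (b : ℝ) (F : EE d → ℝ≥0∞) (hF : Measurable F) :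
    Measurable (fun q : EE d × EE d => (Metric.closedBall q.1 b).indicator F q.2) := by
  have h1 : (fun q : EE d × EE d => (Metric.closedBall q.1 b).indicator F q.2) =
      {q : EE d × EE d | dist q.2 q.1 ≤ b}.indicator (fun q => F q.2) := by
    funext q
    by_cases h : dist q.2 q.1 ≤ b
    · rw [indicator_of_mem (show q.2 ∈ Metric.closedBall q.1 b from h),
        indicator_of_mem (show q ∈ {q : EE d × EE d | dist q.2 q.1 ≤ b} from h)]
    · rw [indicator_of_notMem (show q.2 ∉ Metric.closedBall q.1 b from h),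
        indicator_of_notMem (show q ∉ {q : EE d × EE d | dist q.2 q.1 ≤ b} from h)]
  rw [h1]
  refine (hF.comp measurable_snd).indicator ?_
  exact measurableSet_le (by fun_prop) measurable_const

theorem ba_meas (b : ℝ) (F : EE d → ℝ≥0∞) (hF : Measurable F) : Measurable (ba b F) := by
  have h1 : ba b F = fun x => ∫⁻ y, (Metric.closedBall x b).indicator F y := by
    funext x
    exact ba_ind b F x
  rw [h1]
  exact (ind_meas b F hF).lintegral_prod_right'

/-- the integral of the averages -/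
theorem lint_ba (A : ℝ) (hA : ∀ (x : EE d) (r : ℝ), 0 ≤ r →
    volume (Metric.closedBall x r) = ENNReal.ofReal (A * r ^ d)) (r : ℝ) (hr : 0 ≤ r)
    (H : EE d → ℝ≥0∞) (hH : Measurable H) :
    ∫⁻ z, ba r H z = ENNReal.ofReal (A * r ^ d) * ∫⁻ x, H x := by
  have h1 : ∫⁻ z, ba r H z = ∫⁻ z : EE d, ∫⁻ y, (Metric.closedBall z r).indicator H y := by
    refine lintegral_congr fun z => ?_
    exact ba_ind r H z
  rw [h1, lintegral_lintegral_swap (ind_meas r H hH).aemeasurable, ← lintegral_const_mul _ hH]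
  refine lintegral_congr fun y => ?_
  have h2 : ∀ z : EE d, (Metric.closedBall z r).indicator H y =
      (Metric.closedBall y r).indicator (fun _ => H y) z := by
    intro z
    by_cases h : dist y z ≤ r
    · rw [indicator_of_mem (show y ∈ Metric.closedBall z r from h),
        indicator_of_mem (show z ∈ Metric.closedBall y r by
          rw [Metric.mem_closedBall, dist_comm]; exact h)]
    · rw [indicator_of_notMem (show y ∉ Metric.closedBall z r from h),
        indicator_of_notMem (show z ∉ Metric.closedBall y r by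
          rw [Metric.mem_closedBall, dist_comm]; exact h)]
  simp only [h2]
  rw [lintegral_indicator Metric.isClosed_closedBall.measurableSet, setLIntegral_const, hA y r hr,
    mul_comm]

/-- the average over the centres -/
theorem ba_avg (A : ℝ) (hA : ∀ (x : EE d) (r : ℝ), 0 ≤ r →
    volume (Metric.closedBall x r) = ENNReal.ofReal (A * r ^ d)) (b : ℝ) (hb : 0 ≤ b)
    (f G : EE d → ℝ≥0∞) (hf : Measurable f) (hG : Measurable G) :
    ENNReal.ofReal (A * b ^ d) * ∫⁻ x, f x * ba b G x ≤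
      ∫⁻ z, ba (2 * b) f z * ba (2 * b) G z := by
  rw [← lint_ba A hA b hb (fun x => f x * ba b G x) (hf.mul (ba_meas b G hG))]
  refine lintegral_mono fun z => ?_
  have h1 : ba b (fun x => f x * ba b G x) z ≤ ∫⁻ x in Metric.closedBall z b,
      f x * ba (2 * b) G z := by
    unfold ba
    refine setLIntegral_mono' Metric.isClosed_closedBall.measurableSet fun x hx => ?_
    refine mul_le_mul_right ?_ _
    refine lintegral_mono_set ?_
    refine Metric.closedBall_subset_closedBall' ?_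
    rw [Metric.mem_closedBall] at hx
    linarith
  refine h1.trans ?_
  rw [lintegral_mul_const _ hf]
  refine mul_le_mul_left ?_ _
  unfold ba
  exact lintegral_mono_set (Metric.closedBall_subset_closedBall (by linarith))

/-- Hölder on balls -/
theorem ba_holder (p : ℝ) (hp : 3 < p) (r : ℝ) (F : EE d → ℝ≥0∞) (hF : Measurable F)
    (z : EE d) :
    ba r (fun x => F x ^ 2) z * ba r (fun x => F x ^ (p - 2)) z ≤
      (ba r F z ^ p) ^ (1 / (p - 1)) * ba r (fun x => F x ^ p) z ^ ((p - 2) / (p - 1)) := by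
  have hp1 : 0 < p - 1 := by linarith
  have hFp : Measurable (fun x => F x ^ p) := hF.pow_const p
  have h1 : ba r (fun x => F x ^ 2) z ≤
      ba r F z ^ ((p - 2) / (p - 1)) * ba r (fun x => F x ^ p) z ^ (1 / (p - 1)) := by
    have h2 := ENNReal.lintegral_mul_norm_pow_le
      (μ := volume.restrict (Metric.closedBall z r)) hF.aemeasurable hFp.aemeasurable
      (p := (p - 2) / (p - 1)) (q := 1 / (p - 1)) (div_nonneg (by linarith) hp1.le)
      (div_nonneg zero_le_one hp1.le) (by field_simp; ring)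
    refine le_trans (le_of_eq ?_) h2
    unfold ba
    refine lintegral_congr fun x => ?_
    rw [← ENNReal.rpow_mul, ← ENNReal.rpow_add_of_nonneg _ _ (div_nonneg (by linarith) hp1.le)
      (mul_nonneg (by linarith) (div_nonneg zero_le_one hp1.le)), ← ENNReal.rpow_natCast]
    congr 1
    push_cast
    field_simp
    ring
  have h3 : ba r (fun x => F x ^ (p - 2)) z ≤
      ba r F z ^ (2 / (p - 1)) * ba r (fun x => F x ^ p) z ^ ((p - 3) / (p - 1)) := by
    have h2 := ENNReal.lintegral_mul_norm_pow_le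
      (μ := volume.restrict (Metric.closedBall z r)) hF.aemeasurable hFp.aemeasurable
      (p := 2 / (p - 1)) (q := (p - 3) / (p - 1)) (div_nonneg (by norm_num) hp1.le)
      (div_nonneg (by linarith) hp1.le) (by field_simp; ring)
    refine le_trans (le_of_eq ?_) h2
    unfold ba
    refine lintegral_congr fun x => ?_
    rw [← ENNReal.rpow_mul, ← ENNReal.rpow_add_of_nonneg _ _ (div_nonneg (by norm_num) hp1.le)
      (mul_nonneg (by linarith) (div_nonneg (by linarith) hp1.le))]
    congr 1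
    field_simp
    ring
  refine (mul_le_mul' h1 h3).trans (le_of_eq ?_)
  set a := ba r F z with ha
  set c := ba r (fun x => F x ^ p) z with hc
  have h4 : a ^ ((p - 2) / (p - 1)) * a ^ (2 / (p - 1)) = (a ^ p) ^ (1 / (p - 1)) := by
    rw [← ENNReal.rpow_mul, ← ENNReal.rpow_add_of_nonneg _ _ (div_nonneg (by linarith) hp1.le)
      (div_nonneg (by norm_num) hp1.le)]
    congr 1
    field_simp
    ring
  have h5 : c ^ (1 / (p - 1)) * c ^ ((p - 3) / (p - 1)) = c ^ ((p - 2) / (p - 1)) := by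
    rw [← ENNReal.rpow_add_of_nonneg _ _ (div_nonneg zero_le_one hp1.le)
      (div_nonneg (by linarith) hp1.le)]
    congr 1
    field_simp
    ring
  calc a ^ ((p - 2) / (p - 1)) * c ^ (1 / (p - 1)) * (a ^ (2 / (p - 1)) * c ^ ((p - 3) / (p - 1)))
      = (a ^ ((p - 2) / (p - 1)) * a ^ (2 / (p - 1))) *
        (c ^ (1 / (p - 1)) * c ^ ((p - 3) / (p - 1))) := by ring
    _ = _ := by rw [h4, h5]

/-- one dyadic term -/
theorem Tb (A : ℝ) (hA0 : 0 < A) (hA : ∀ (x : EE d) (r : ℝ), 0 ≤ r →
    volume (Metric.closedBall x r) = ENNReal.ofReal (A * r ^ d)) (p : ℝ) (hp : 3 < p) (b : ℝ)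
    (hb : 0 < b) (F : EE d → ℝ≥0∞) (hF : Measurable F) (W : ℝ≥0∞) (X Y : ℝ) (hX : 0 ≤ X)
    (hY : 0 ≤ Y) (h1 : ∫⁻ z, ba (2 * b) F z ^ p ≤ ENNReal.ofReal X * W)
    (h2 : ∫⁻ x, F x ^ p ≤ ENNReal.ofReal Y * W) :
    ∫⁻ x, F x ^ 2 * ba b (fun y => F y ^ (p - 2)) x ≤
      ENNReal.ofReal ((A * b ^ d)⁻¹ * (X ^ (1 / (p - 1)) *
        (A * (2 * b) ^ d * Y) ^ ((p - 2) / (p - 1)))) * W := by
  have hp1 : 0 < p - 1 := by linarith
  have hAb : 0 < A * b ^ d := by positivity
  have hF2 : Measurable (fun x => F x ^ 2) := hF.pow_const 2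
  have hG : Measurable (fun x => F x ^ (p - 2)) := hF.pow_const (p - 2)
  have hFp : Measurable (fun x => F x ^ p) := hF.pow_const p
  have h3 := ba_avg A hA b hb.le _ _ hF2 hG
  have h4 : ∫⁻ z, ba (2 * b) (fun x => F x ^ 2) z * ba (2 * b) (fun x => F x ^ (p - 2)) z ≤
      (∫⁻ z, ba (2 * b) F z ^ p) ^ (1 / (p - 1)) *
        (∫⁻ z, ba (2 * b) (fun x => F x ^ p) z) ^ ((p - 2) / (p - 1)) := by
    refine (lintegral_mono fun z => ba_holder p hp (2 * b) F hF z).trans ?_
    exact ENNReal.lintegral_mul_norm_pow_le ((ba_meas (2 * b) F hF).pow_const p).aemeasurable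
      (ba_meas (2 * b) _ hFp).aemeasurable (div_nonneg zero_le_one hp1.le)
      (div_nonneg (by linarith) hp1.le) (by field_simp; ring)
  have h5 : ∫⁻ z, ba (2 * b) (fun x => F x ^ p) z ≤
      ENNReal.ofReal (A * (2 * b) ^ d * Y) * W := by
    rw [lint_ba A hA (2 * b) (by linarith) _ hFp,
      ENNReal.ofReal_mul (p := A * (2 * b) ^ d) (q := Y) (by positivity), mul_assoc]
    exact mul_le_mul_right h2 _
  have h6 : (∫⁻ z, ba (2 * b) F z ^ p) ^ (1 / (p - 1)) *
        (∫⁻ z, ba (2 * b) (fun x => F x ^ p) z) ^ ((p - 2) / (p - 1)) ≤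
      ENNReal.ofReal (X ^ (1 / (p - 1)) * (A * (2 * b) ^ d * Y) ^ ((p - 2) / (p - 1))) * W := by
    refine (mul_le_mul' (ENNReal.rpow_le_rpow h1 (div_nonneg zero_le_one hp1.le))
      (ENNReal.rpow_le_rpow h5 (div_nonneg (by linarith) hp1.le))).trans (le_of_eq ?_)
    rw [ENNReal.mul_rpow_of_nonneg _ _ (div_nonneg zero_le_one hp1.le),
      ENNReal.mul_rpow_of_nonneg _ _ (div_nonneg (by linarith) hp1.le),
      ENNReal.ofReal_rpow_of_nonneg hX (div_nonneg zero_le_one hp1.le),
      ENNReal.ofReal_rpow_of_nonneg (by positivity) (div_nonneg (by linarith) hp1.le),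
      ENNReal.ofReal_mul (by positivity)]
    have h7 : W ^ (1 / (p - 1)) * W ^ ((p - 2) / (p - 1)) = W := by
      rw [← ENNReal.rpow_add_of_nonneg _ _ (div_nonneg zero_le_one hp1.le)
        (div_nonneg (by linarith) hp1.le)]
      have : 1 / (p - 1) + (p - 2) / (p - 1) = 1 := by
        field_simp
        ring
      rw [this, ENNReal.rpow_one]
    calc _ = ENNReal.ofReal (X ^ (1 / (p - 1))) *
          ENNReal.ofReal ((A * (2 * b) ^ d * Y) ^ ((p - 2) / (p - 1))) *
          (W ^ (1 / (p - 1)) * W ^ ((p - 2) / (p - 1))) := by ring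
      _ = _ := by rw [h7]
  have h8 := h3.trans (h4.trans h6)
  set T := ∫⁻ x, F x ^ 2 * ba b (fun y => F y ^ (p - 2)) x with hT
  have h9 : T = ENNReal.ofReal ((A * b ^ d)⁻¹) * (ENNReal.ofReal (A * b ^ d) * T) := by
    rw [← mul_assoc, ← ENNReal.ofReal_mul (by positivity), inv_mul_cancel₀ hAb.ne',
      ENNReal.ofReal_one, one_mul]
  rw [h9, ENNReal.ofReal_mul (p := (A * b ^ d)⁻¹) (by positivity), mul_assoc]
  exact mul_le_mul_right h8 _

end Pool.Agent.H35.PD
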